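import Pool.Agent.Mg.F4d0cf5.G342a37

set_option autoImplicit false

namespace Pool.Agent.Results.MP_4d0cf5_co.Treewidth2NoLowDim

open Pool.Agent.MP_4d0cf5_co

theorem result (C : ℝ) (k : ℕ → ℕ)
    (hk : ∀ ε : ℝ, 0 < ε → ∀ᶠ N : ℕ in Filter.atTop, (k N : ℝ) ≤ (N : ℝ) ^ ε) :
    ∀ᶠ N : ℕ in Filter.atTop, ∃ (pa : Fin N → Finset (Fin N)) (D : (Fin N → Bool) → ℝ),
      IsBayesNet pa D ∧ treewidth (underlying pa) = 2 ∧ ¬ EmbedsL1 (disagree D) (k N) C :=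
  Pool.Agent.MP_4d0cf5_co.main C k hk

end Pool.Agent.Results.MP_4d0cf5_co.Treewidth2NoLowDim
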